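import Mathlib
import Pool.Agent.Helper32.Siciak.Main

/-!
# MP_417fd2_an, Q1: full answer (yes)

For every generic `C^∞` submanifold `M` of `ℂ^n` and every bounded domain `D` in `M` with smooth
boundary, the pluricomplex Green function of `closure D` is Hölder continuous of order `1/2`.
-/

open Pool.Agent.Helper32.Siciak

namespace Pool.Agent.Results.MP_417fd2_an.HolderHalf

theorem result (n : ℕ) (M D : Set (EuclideanSpace ℂ (Fin n))) (hM : IsSubmanifold M)
    (hgen : IsGeneric M) (hD : IsDomainIn M D) (hbd : HasSmoothBoundary M D) :
    IsHolderHalf (closure D) :=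
  main hM hgen hD hbd

end Pool.Agent.Results.MP_417fd2_an.HolderHalf
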